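import Pool.Agent.Helper70.TW.Goals

/-!
# Project TW, packet BURC: the Borsuk-Ulam theorem with weights over real closed fields
-/

namespace Pool.Agent.Helper39.TW

open MvPolynomial Finset Pool.Agent.Helper70.BU Pool.Agent.Helper70.TW

universe u v

/-- the map of `A[i]` induced by a ring homomorphism -/
def gmap {A : Type u} {B : Type v} [CommRing A] [CommRing B] (φ : A →+* B) : GF A →+* GF B where
  toFun z := ⟨φ z.re, φ z.im⟩
  map_one' := by ext <;> simp [QuadraticAlgebra.re_one, QuadraticAlgebra.im_one]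
  map_mul' z w := by ext <;> simp
  map_zero' := by ext <;> simp
  map_add' z w := by ext <;> simp

lemma gmap_star {A : Type u} {B : Type v} [CommRing A] [CommRing B] (φ : A →+* B) (z : GF A) :
    gmap φ (star z) = star (gmap φ z) := by
  ext <;> simp [gmap]

section

variable {ι Λ : Type} [Fintype ι]

/-- the value of the system with coefficients `c` at the point `x` -/
def VV {k : Type u} [CommRing k] (S : Λ → Finset ((ι ⊕ ι) →₀ ℕ)) (c : (Σ l, S l) × Bool → k)
    (x : ι × Bool → k) (l : Λ) : GF k :=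
  ∑ d : S l, (⟨c (⟨l, d⟩, false), c (⟨l, d⟩, true)⟩ : GF k) * ∏ s : ι ⊕ ι,
    (Sum.elim (fun i => (⟨x (i, false), x (i, true)⟩ : GF k))
      (fun i => star (⟨x (i, false), x (i, true)⟩ : GF k)) s) ^ (d : (ι ⊕ ι) →₀ ℕ) s

lemma gmap_VV {A : Type u} {B : Type v} [CommRing A] [CommRing B] (φ : A →+* B)
    (S : Λ → Finset ((ι ⊕ ι) →₀ ℕ)) (c : (Σ l, S l) × Bool → A) (x : ι × Bool → A) (l : Λ) :
    gmap φ (VV S c x l) = VV S (fun a => φ (c a)) (fun a => φ (x a)) l := by
  unfold VV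
  rw [map_sum]
  refine sum_congr rfl (fun d _ => ?_)
  rw [map_mul, map_prod]
  congr 1
  refine prod_congr rfl (fun s _ => ?_)
  rw [map_pow]
  rcases s with i | i
  · rfl
  · simp only [Sum.elim_inr]
    rw [gmap_star]
    rfl

lemma evs_eq {A : Type u} [CommRing A] (f : Λ → MvPolynomial (ι ⊕ ι) (GF A))
    (x : ι × Bool → A) (l : Λ) :
    evs (fun i => (⟨x (i, false), x (i, true)⟩ : GF A)) (f l) =
      VV (fun l => (f l).support) (fun a => if a.2 then (coeff (a.1.2 : (ι ⊕ ι) →₀ ℕ) (f a.1.1)).im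
        else (coeff (a.1.2 : (ι ⊕ ι) →₀ ℕ) (f a.1.1)).re) x l := by
  unfold evs VV
  rw [MvPolynomial.eval_eq', ← Finset.sum_coe_sort (f l).support]
  refine sum_congr rfl (fun d _ => ?_)
  rfl

/-- `GF ℝ` and `ℂ` -/
noncomputable def toC : GF ℝ →+* ℂ where
  toFun z := ⟨z.re, z.im⟩
  map_one' := by
    apply Complex.ext <;> simp [QuadraticAlgebra.re_one, QuadraticAlgebra.im_one]
  map_mul' z w := by apply Complex.ext <;> simp <;> ring
  map_zero' := by apply Complex.ext <;> simp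
  map_add' z w := by apply Complex.ext <;> simp

lemma toC_star (z : GF ℝ) : toC (star z) = (starRingEnd ℂ) (toC z) := by
  apply Complex.ext <;> simp [toC]

lemma toC_inj {z : GF ℝ} (h : toC z = 0) : z = 0 := by
  have h1 : z.re = 0 := congrArg Complex.re h
  have h2 : z.im = 0 := congrArg Complex.im h
  ext
  · exact h1
  · exact h2

/-- the integer polynomials -/
noncomputable def PP {κ : Type} [DecidableEq κ] (b : ι → κ) (S : Λ → Finset ((ι ⊕ ι) →₀ ℕ)) :
    (Λ ⊕ Λ) ⊕ κ → MvPolynomial (((Σ l, S l) × Bool) ⊕ (ι × Bool)) ℤ :=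
  Sum.elim (Sum.elim
    (fun l => (VV S (fun a => (X (Sum.inl a) : MvPolynomial (((Σ l, S l) × Bool) ⊕ (ι × Bool)) ℤ))
      (fun a => X (Sum.inr a)) l).re)
    (fun l => (VV S (fun a => (X (Sum.inl a) : MvPolynomial (((Σ l, S l) × Bool) ⊕ (ι × Bool)) ℤ))
      (fun a => X (Sum.inr a)) l).im))
      (fun k => ∑ i with b i = k, (X (Sum.inr (i, false)) ^ 2 + X (Sum.inr (i, true)) ^ 2) - 1)

lemma PP_val {κ : Type} [DecidableEq κ] (b : ι → κ) (S : Λ → Finset ((ι ⊕ ι) →₀ ℕ))
    {k : Type u} [CommRing k] (c : (Σ l, S l) × Bool → k) (x : ι × Bool → k) :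
    (∀ l, aeval (Sum.elim c x) (PP b S (Sum.inl (Sum.inl l))) = (VV S c x l).re) ∧
    (∀ l, aeval (Sum.elim c x) (PP b S (Sum.inl (Sum.inr l))) = (VV S c x l).im) ∧
    (∀ j, aeval (Sum.elim c x) (PP b S (Sum.inr j)) =
      ∑ i with b i = j, (x (i, false) ^ 2 + x (i, true) ^ 2) - 1) := by
  have h0 : ∀ l, gmap (aeval (Sum.elim c x) : MvPolynomial (((Σ l, S l) × Bool) ⊕ (ι × Bool)) ℤ
      →ₐ[ℤ] k).toRingHom (VV S (fun a => X (Sum.inl a)) (fun a => X (Sum.inr a)) l) =
      VV S c x l := by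
    intro l
    rw [gmap_VV]
    congr 1
    · funext a; simp
    · funext a; simp
  refine ⟨fun l => ?_, fun l => ?_, fun j => ?_⟩
  · exact congrArg QuadraticAlgebra.re (h0 l)
  · exact congrArg QuadraticAlgebra.im (h0 l)
  · simp [PP]

end

theorem burc (hBUG : BUG) (hTT : Pool.Agent.Helper70.RC.TT.{u}) : BURC.{u} := by
  intro R _ _ ι κ Λ _ _ _ _ _ b α β e he hsum hcoef f hf
  set S : Λ → Finset ((ι ⊕ ι) →₀ ℕ) := fun l => (f l).support with hS
  -- over the real numbers
  have hreal : ∀ c : (Σ l, S l) × Bool → ℝ, ∃ x : ι × Bool → ℝ, ∀ l : (Λ ⊕ Λ) ⊕ κ,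
      aeval (Sum.elim c x) (PP b S l) = 0 := by
    intro c
    set F : Λ → MvPolynomial (ι ⊕ ι) ℂ := fun l => ∑ d : S l,
      monomial (d : (ι ⊕ ι) →₀ ℕ) (⟨c (⟨l, d⟩, false), c (⟨l, d⟩, true)⟩ : ℂ) with hF
    have hsup : ∀ l, ∀ d ∈ (F l).support, d ∈ (f l).support := by
      intro l d hd
      by_contra hcon
      rw [mem_support_iff] at hd
      apply hd
      rw [hF]
      simp only
      rw [coeff_sum]
      refine sum_eq_zero (fun d' _ => ?_)
      rw [coeff_monomial, if_neg]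
      intro h
      exact hcon (h ▸ d'.2)
    obtain ⟨z, hz, hFz⟩ := hBUG ι κ Λ b (fun l k => (α l k : ℤ) - (β l k : ℤ)) F e he hsum (by
      intro l d hd k
      have h1 := hf l d (hsup l d hd) k
      rw [sum_sub_distrib, ← Nat.cast_sum, ← Nat.cast_sum, h1.1, h1.2]) hcoef
    refine ⟨fun a => if a.2 then (z a.1).im else (z a.1).re, ?_⟩
    obtain ⟨p1, p2, p3⟩ := PP_val b S c (fun a : ι × Bool => if a.2 then (z a.1).im else (z a.1).re)
    have hV : ∀ l, VV S c (fun a : ι × Bool => if a.2 then (z a.1).im else (z a.1).re) l = 0 := by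
      intro l
      apply toC_inj
      rw [← hFz l]
      unfold VV evc
      rw [map_sum, hF]
      simp only
      rw [map_sum]
      refine sum_congr rfl (fun d _ => ?_)
      rw [map_mul, map_prod, eval_monomial, Finsupp.prod_fintype _ _ (fun i => pow_zero _)]
      congr 1
      refine prod_congr rfl (fun s _ => ?_)
      rw [map_pow]
      rcases s with i | i
      · rfl
      · simp only [Sum.elim_inr]
        rw [toC_star]
        rfl
    rintro ((l | l) | k)
    · rw [p1, hV]; rfl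
    · rw [p2, hV]; rfl
    · rw [p3]
      have h1 := hz k
      rw [← h1, sub_eq_zero]
      refine sum_congr rfl (fun i _ => ?_)
      rw [Complex.sq_norm, Complex.normSq_apply]
      simp
      ring
  obtain ⟨x, hx⟩ := hTT _ _ _ (PP b S) hreal R
    (fun a => if a.2 then (coeff (a.1.2 : (ι ⊕ ι) →₀ ℕ) (f a.1.1)).im
        else (coeff (a.1.2 : (ι ⊕ ι) →₀ ℕ) (f a.1.1)).re)
  obtain ⟨p1, p2, p3⟩ := PP_val b S
    (fun a : (Σ l, S l) × Bool => if a.2 then (coeff (a.1.2 : (ι ⊕ ι) →₀ ℕ) (f a.1.1)).im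
        else (coeff (a.1.2 : (ι ⊕ ι) →₀ ℕ) (f a.1.1)).re) x
  refine ⟨fun i => ⟨x (i, false), x (i, true)⟩, ?_, ?_⟩
  · intro k
    by_contra hcon
    push Not at hcon
    have h1 := hx (Sum.inr k)
    rw [p3, sum_eq_zero] at h1
    · rw [zero_sub, neg_eq_zero] at h1
      exact one_ne_zero h1
    · intro i hi
      have h2 := hcon i (mem_filter.1 hi).2
      have h3 : x (i, false) = 0 := congrArg QuadraticAlgebra.re h2
      have h4 : x (i, true) = 0 := congrArg QuadraticAlgebra.im h2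
      rw [h3, h4]
      ring
  · intro l
    rw [evs_eq f x l]
    have h1 := hx (Sum.inl (Sum.inl l))
    have h2 := hx (Sum.inl (Sum.inr l))
    rw [p1] at h1
    rw [p2] at h2
    exact QuadraticAlgebra.ext h1 h2

end Pool.Agent.Helper39.TW
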