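import Pool.Agent.Helper83.TW.Goals1
set_option autoImplicit false
namespace Pool.Agent.Helper83.TW
theorem pf_GStage1 (hI : GIter) (hL : GLimit) : GStage1 := by
  obtain ⟨A0, h⟩ := hI
  refine ⟨A0, fun ρ h0 h1 g hg hb hp => ?_⟩
  obtain ⟨hGB, S, r, s, δ, Λ, η, M, hS⟩ := h ρ h0 h1 g hg hb hp
  exact hL g ρ hGB S r s δ Λ η M hS
end Pool.Agent.Helper83.TW
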